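import Pool.Agent.TH977.PW.Inst
import Pool.Agent.Y677.RSZ.FinInst

set_option autoImplicit false

/-!
# Narrow progressions of regular triples of consecutive integers

If `n, n + 1, n + 2` are products of two distinct primes, `n` large, then `n + 1` is even, and `n` or
`n + 2` is divisible by three.  We consider the triples `n, n + 1, n + 2` with `n = 12 m + 9` (type
`true`), which are `3, 2, 1` times the numbers `4 m + 3, 6 m + 5, 12 m + 11`, and with `n = 12 m + 1`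
(type `false`), which are `1, 2, 3` times the numbers `12 m + 1, 6 m + 1, 4 m + 1`.  A triple is *rough* if
none of the three cofactors has a prime factor `≤ m ^ (1 / r)`.  For all large `r`:

(1) the triples for which moreover each cofactor has at most `r` prime factors: a positive proportion
of the expected number of them, in all intervals `(X, X + Y]`, `X ^ θ ≤ Y ≤ X / 2`, are terms of
`l`-term arithmetic progressions of regular such triples, for all `l`, with differences at most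
`(log X) ^ D`.

(2) Let `A` be an ARBITRARY set of rough triples (for instance all of those for which the numbers
`n, n + 1, n + 2` are products of two distinct primes).  For all `l ≥ 2`, `ε > 0`, all large `X` and all `Y`
with `X ^ θ ≤ Y ≤ X / 2` all but `ε Y / log ^ 3 X` of the elements of `A` in `(X, X + Y]` are terms of
`l`-term arithmetic progressions, with difference at most a fixed power of `log X`, which consist of
regular points of `A` in `(X, X + Y]`.

The parts are the library theorems `Pool.Agent.Y677.RSZ.narrow_lin` (narrow progressions) and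
`Pool.Agent.TH977.PW.final_lin` (regular points).
-/

open Finset Filter

namespace Pool.Agent.Results.MP_a916dd_nt.NarrowProgressions

/-- the first number of the triple -/
def first (s : Bool) (m : ℕ) : ℕ := if s then 12 * m + 9 else 12 * m + 1

/-- the cofactors of the three numbers `n, n + 1, n + 2`, `n = first s m`: the numbers divided by
`3, 2, 1` (type `true`) or by `1, 2, 3` (type `false`) -/
def cofactor (s : Bool) (m : ℕ) : Fin 3 → ℕ :=
  if s then ![4 * m + 3, 6 * m + 5, 12 * m + 11] else ![12 * m + 1, 6 * m + 1, 4 * m + 1]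

/-- no cofactor has a prime factor `p ≤ m ^ (1 / r)` -/
def Rough (s : Bool) (r m : ℕ) : Prop :=
  ∀ i, ∀ p : ℕ, p.Prime → p ∣ cofactor s m i → (m : ℝ) ^ (1 / (r : ℝ)) < (p : ℝ)

/-- rough triples, each cofactor with at most `r` prime factors (with multiplicity) -/
def Good (s : Bool) (r : ℕ) : Set ℕ :=
  {m | Rough s r m ∧ ∀ i, (cofactor s m i).primeFactorsList.length ≤ r}

open Classical in
/-- the number of elements of `A` in `(a, b]` -/
noncomputable def cnt (A : Set ℕ) (a b : ℕ) : ℕ := ((Ioc a b).filter (fun m => m ∈ A)).card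

/-- All intervals `(m - s, m + t]` with `s, t ≤ Y` of length at least `log ^ 3 X / c` contain the
right order of elements of `A`. -/
def RightOrder (A : Set ℕ) (c : ℝ) (X Y m : ℕ) : Prop :=
  ∀ s t : ℕ, s ≤ Y → t ≤ Y → Real.log X ^ 3 ≤ c * (s + t) →
    c * (s + t) / Real.log X ^ 3 ≤ cnt A (m - s) (m + t) ∧
      (cnt A (m - s) (m + t) : ℝ) ≤ (s + t) / (c * Real.log X ^ 3)

/-- Up to `δ`, `A` has a constant density on both sides of `m` up to the distance `2 ^ j`. -/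
def ConstantDensity (A : Set ℕ) (c δ : ℝ) (X m j : ℕ) : Prop :=
  ∃ lam : ℝ, c ≤ lam ∧ lam ≤ 1 / c ∧ ∀ s t : ℕ, s ≤ 2 ^ j → t ≤ 2 ^ j →
    |(cnt A (m - s) (m + t) : ℝ) - lam * (s + t) / Real.log X ^ 3| ≤ δ * 2 ^ j / Real.log X ^ 3

open Classical in
/-- `m` is a regular point of `A`: `RightOrder`, and `ConstantDensity` at all but `B` of the scales
`log ^ 3 X ≤ 2 ^ j ≤ Y`. -/
def Regular (A : Set ℕ) (c δ : ℝ) (B X Y m : ℕ) : Prop :=
  RightOrder A c X Y m ∧
    ((Finset.range (Nat.log 2 Y + 1)).filter (fun j => Real.log X ^ 3 ≤ (2 : ℝ) ^ j ∧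
      ¬ ConstantDensity A c δ X m j)).card ≤ B

/-- the regular points of `A` -/
def RegularPoints (A : Set ℕ) (c δ : ℝ) (B X Y : ℕ) : Set ℕ :=
  {m | m ∈ A ∧ Regular A c δ B X Y m}

/-- `m` is a term of an `l`-term arithmetic progression, with a difference `d`, `1 ≤ d ≤ D`, of
elements of `S` in `(a, b]`. -/
def InProgression (S : Set ℕ) (l : ℕ) (D : ℝ) (a b m : ℕ) : Prop :=
  ∃ u d : ℕ, 1 ≤ d ∧ (d : ℝ) ≤ D ∧ (∀ i < l, u + i * d ∈ S ∧ a < u + i * d ∧ u + i * d ≤ b) ∧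
    ∃ i < l, m = u + i * d

/-! ### proofs -/

/-- coefficients -/
def ca (s : Bool) : Fin 3 → ℕ := if s then ![4, 6, 12] else ![12, 6, 4]

/-- coefficients -/
def cb (s : Bool) : Fin 3 → ℤ := if s then ![3, 5, 11] else ![1, 1, 1]

lemma cof_eq (s : Bool) (m : ℕ) (i : Fin 3) :
    ((ca s i : ℕ) : ℤ) * (m : ℤ) + cb s i = ((cofactor s m i : ℕ) : ℤ) := by
  cases s <;> fin_cases i <;> simp [ca, cb, cofactor]

lemma ca_pos (s : Bool) (i : Fin 3) : 0 < ca s i := by
  cases s <;> fin_cases i <;> simp [ca]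

lemma cop (s : Bool) (i : Fin 3) : IsCoprime ((ca s i : ℕ) : ℤ) (cb s i) := by
  rw [Int.isCoprime_iff_gcd_eq_one]
  cases s <;> fin_cases i <;> rfl

lemma inj (s : Bool) (i j : Fin 3) (h : ca s i = ca s j) (_ : cb s i = cb s j) : i = j := by
  revert h
  cases s <;> fin_cases i <;> fin_cases j <;> simp [ca]

lemma adm (s : Bool) (p : ℕ) (hp : p.Prime) : ∃ m : ℕ, ∀ i, ¬ p ∣ cofactor s m i := by
  cases s
  · refine ⟨0, fun i => ?_⟩
    have : cofactor false 0 i = 1 := by fin_cases i <;> rfl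
    rw [this]
    exact fun h => hp.one_lt.ne' (Nat.dvd_one.1 h)
  · by_cases h3 : p = 3
    · subst h3
      exact ⟨1, by decide⟩
    · by_cases h5 : p = 5
      · subst h5
        exact ⟨1, by decide⟩
      · by_cases h11 : p = 11
        · subst h11
          exact ⟨3, by decide⟩
        · refine ⟨0, fun i hd => ?_⟩
          fin_cases i
          · exact h3 ((Nat.prime_dvd_prime_iff_eq hp (by norm_num)).1 hd)
          · exact h5 ((Nat.prime_dvd_prime_iff_eq hp (by norm_num)).1 hd)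
          · exact h11 ((Nat.prime_dvd_prime_iff_eq hp (by norm_num)).1 hd)

lemma dvd_iff (s : Bool) (m p : ℕ) (i : Fin 3) :
    (p : ℤ) ∣ ((ca s i : ℕ) : ℤ) * (m : ℤ) + cb s i ↔ p ∣ cofactor s m i := by
  rw [cof_eq, Int.natCast_dvd_natCast]

lemma abs_eq (s : Bool) (m : ℕ) (i : Fin 3) :
    (((ca s i : ℕ) : ℤ) * (m : ℤ) + cb s i).natAbs = cofactor s m i := by
  rw [cof_eq, Int.natAbs_natCast]

open Classical in
/-- the statement for arbitrary sets of rough triples, and the lower bound -/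
lemma general (s : Bool) (θ : ℝ) (hθ : 0 < θ) (hθ1 : θ ≤ 1) :
    ∃ r0 : ℕ, 2 ≤ r0 ∧ ∀ r : ℕ, r0 ≤ r →
      (∃ κ : ℝ, 0 < κ ∧ ∀ᶠ X : ℕ in atTop, ∀ Y : ℕ, (X : ℝ) ^ θ ≤ Y → Y ≤ X →
        κ * Y / Real.log X ^ 3 ≤ cnt (Good s r) X (X + Y)) ∧
      ∀ ε : ℝ, 0 < ε → ∃ c : ℝ, 0 < c ∧ ∀ δ : ℝ, 0 < δ → ∃ B : ℕ, ∀ l : ℕ, 2 ≤ l → ∃ D : ℕ,
        ∀ᶠ X : ℕ in atTop, ∀ Y : ℕ, (X : ℝ) ^ θ ≤ Y → 2 * Y ≤ X →
          ∀ A : Set ℕ, (∀ m ∈ A, Rough s r m) →
            (((Ioc X (X + Y)).filter (fun m : ℕ => m ∈ A ∧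
              ¬ InProgression (RegularPoints A c δ B X Y) l (Real.log X ^ D) X (X + Y) m)).card : ℝ) ≤
              ε * (Y / Real.log X ^ 3) := by
  have hadm : ∀ p : ℕ, p.Prime → ∃ m : ℕ, ∀ i, ¬ (p : ℤ) ∣ ((ca s i : ℕ) : ℤ) * (m : ℤ) + cb s i := by
    intro p hp
    obtain ⟨m, hm⟩ := adm s p hp
    exact ⟨m, fun i hd => hm i ((dvd_iff s m p i).1 hd)⟩
  have hR : ∀ r m : ℕ, 2 ≤ r → m ∈ {m | Rough s r m} → ∀ i, ∀ p : ℕ, p.Prime →
      (p : ℤ) ∣ ((ca s i : ℕ) : ℤ) * (m : ℤ) + cb s i → (m : ℝ) ^ (1 / (r : ℝ)) < (p : ℝ) :=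
    fun r m _ hm i p hp hd => hm i p hp ((dvd_iff s m p i).1 hd)
  have hAl : ∀ r m : ℕ, 2 ≤ r → (∀ i, ∀ p : ℕ, p.Prime →
      (p : ℤ) ∣ ((ca s i : ℕ) : ℤ) * (m : ℤ) + cb s i → (m : ℝ) ^ (1 / (r : ℝ)) < (p : ℝ)) →
      (∀ i, (((ca s i : ℕ) : ℤ) * (m : ℤ) + cb s i).natAbs.primeFactorsList.length ≤ r) →
      m ∈ Good s r := by
    intro r m _ h1 h2
    refine ⟨fun i p hp hd => h1 i p hp ((dvd_iff s m p i).2 hd), fun i => ?_⟩
    have := h2 i
    rwa [abs_eq] at this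
  obtain ⟨r1, hr1, hfin⟩ := Pool.Agent.TH977.PW.final_lin (ι := Fin 3) (ca s) (cb s) (ca_pos s)
    (cop s) (inj s) hadm (fun r => {m | Rough s r m}) (Good s) 3 (by simp) hR hAl θ hθ hθ1
  obtain ⟨r2, hr2, hnar⟩ := Pool.Agent.Y677.RSZ.narrow_lin (ι := Fin 3) (ca s) (cb s) (ca_pos s)
    (cop s) (inj s) hadm (fun r => {m | Rough s r m}) (Good s) 3 (by simp) hR hAl θ hθ hθ1
  refine ⟨max r1 r2, hr1.trans (le_max_left _ _), fun r hr => ?_⟩
  obtain ⟨-, h1⟩ := hfin r ((le_max_left _ _).trans hr)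
  obtain ⟨hlow, h2⟩ := hnar r ((le_max_right _ _).trans hr)
  refine ⟨hlow, fun ε hε => ?_⟩
  obtain ⟨c, hc0, h3⟩ := h1 (ε / 2) (by positivity)
  refine ⟨c, hc0, fun δ hδ => ?_⟩
  obtain ⟨B, h4⟩ := h3 δ hδ
  refine ⟨B, fun l hl => ?_⟩
  obtain ⟨D, hD⟩ := h2 l hl (ε / 2) (by positivity)
  refine ⟨D, ?_⟩
  filter_upwards [h4, hD] with X h6 h7
  intro Y hXY hYX A hA
  have h8 := h6 Y hXY hYX A (fun m hm => hA m hm)
  have h9 := h7 Y hXY (by omega) (RegularPoints A c δ B X Y) (fun m hm => hA m hm.1)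
  have hreg : ∀ m, m ∈ A → m ∉ Pool.Agent.TH977.PW.Irregular A 3 c δ B X Y →
      m ∈ RegularPoints A c δ B X Y := by
    intro m hmA hm
    refine ⟨hmA, ?_⟩
    by_contra hcon
    exact hm ⟨hmA, hcon⟩
  have hsub : (Ioc X (X + Y)).filter (fun m : ℕ => m ∈ A ∧
      ¬ InProgression (RegularPoints A c δ B X Y) l (Real.log X ^ D) X (X + Y) m) ⊆
      (Ioc X (X + Y)).filter (fun m : ℕ => m ∈ Pool.Agent.TH977.PW.Irregular A 3 c δ B X Y) ∪
      (Ioc X (X + Y)).filter (fun m : ℕ => m ∈ Pool.Agent.Y677.RSZ.Outside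
        (RegularPoints A c δ B X Y) l (Real.log X ^ D) X (X + Y)) := by
    intro m hm
    rw [mem_filter] at hm
    rw [mem_union, mem_filter, mem_filter]
    by_cases hi : m ∈ Pool.Agent.TH977.PW.Irregular A 3 c δ B X Y
    · left
      exact ⟨hm.1, hi⟩
    · right
      exact ⟨hm.1, hreg m hm.2.1 hi, hm.2.2⟩
  have hcard := (Finset.card_le_card hsub).trans (Finset.card_union_le _ _)
  have hcard' : (((Ioc X (X + Y)).filter (fun m : ℕ => m ∈ A ∧
      ¬ InProgression (RegularPoints A c δ B X Y) l (Real.log X ^ D) X (X + Y) m)).card : ℝ) ≤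
      ((Pool.Agent.TH977.PW.N (Pool.Agent.TH977.PW.Irregular A 3 c δ B X Y) X (X + Y) : ℕ) : ℝ) +
      ((Pool.Agent.TH977.PW.N (Pool.Agent.Y677.RSZ.Outside
        (RegularPoints A c δ B X Y) l (Real.log X ^ D) X (X + Y)) X (X + Y) : ℕ) : ℝ) := by
    unfold Pool.Agent.TH977.PW.N
    exact_mod_cast hcard
  rw [mul_div_assoc] at h8 h9
  linarith [hcard', h8, h9]

/-- the three numbers and their cofactors -/
theorem triple (s : Bool) (m : ℕ) (i : Fin 3) :
    first s m + (i : ℕ) = (if s then ![3, 2, 1] else ![1, 2, 3]) i * cofactor s m i := by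
  cases s <;> fin_cases i <;> simp [first, cofactor] <;> ring

open Classical in
/-- **Narrow progressions of regular triples of consecutive integers.** -/
theorem result (θ : ℝ) (hθ : 0 < θ) (hθ1 : θ ≤ 1) (s : Bool) :
    (∀ (m : ℕ) (i : Fin 3),
      first s m + (i : ℕ) = (if s then ![3, 2, 1] else ![1, 2, 3]) i * cofactor s m i) ∧
    ∃ r0 : ℕ, 2 ≤ r0 ∧ ∀ r : ℕ, r0 ≤ r →
      (∃ c κ : ℝ, 0 < c ∧ 0 < κ ∧ ∀ δ : ℝ, 0 < δ → ∃ B : ℕ, ∀ l : ℕ, 2 ≤ l → ∃ D : ℕ,
        ∀ᶠ X : ℕ in atTop, ∀ Y : ℕ, (X : ℝ) ^ θ ≤ Y → 2 * Y ≤ X →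
          κ * (Y / Real.log X ^ 3) ≤ (((Ioc X (X + Y)).filter (fun m : ℕ =>
            InProgression (RegularPoints (Good s r) c δ B X Y) l (Real.log X ^ D) X (X + Y) m)).card :
              ℝ)) ∧
      ∀ ε : ℝ, 0 < ε → ∃ c : ℝ, 0 < c ∧ ∀ δ : ℝ, 0 < δ → ∃ B : ℕ, ∀ l : ℕ, 2 ≤ l → ∃ D : ℕ,
        ∀ᶠ X : ℕ in atTop, ∀ Y : ℕ, (X : ℝ) ^ θ ≤ Y → 2 * Y ≤ X →
          ∀ A : Set ℕ, (∀ m ∈ A, Rough s r m) →
            (((Ioc X (X + Y)).filter (fun m : ℕ => m ∈ A ∧
              ¬ InProgression (RegularPoints A c δ B X Y) l (Real.log X ^ D) X (X + Y) m)).card : ℝ) ≤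
              ε * (Y / Real.log X ^ 3) := by
  refine ⟨triple s, ?_⟩
  obtain ⟨r0, hr0, h⟩ := general s θ hθ hθ1
  refine ⟨r0, hr0, fun r hr => ⟨?_, (h r hr).2⟩⟩
  obtain ⟨⟨κ, hκ, hlow⟩, h1⟩ := h r hr
  obtain ⟨c, hc, h2⟩ := h1 (κ / 2) (by positivity)
  refine ⟨c, κ / 2, hc, by positivity, fun δ hδ => ?_⟩
  obtain ⟨B, h3⟩ := h2 δ hδ
  refine ⟨B, fun l hl => ?_⟩
  obtain ⟨D, h4⟩ := h3 l hl
  refine ⟨D, ?_⟩
  filter_upwards [hlow, h4] with X h5 h6
  intro Y hXY hYX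
  have h7 := h5 Y hXY (by omega)
  have h8 := h6 Y hXY hYX (Good s r) (fun m hm => hm.1)
  have hsub : (Ioc X (X + Y)).filter (fun m : ℕ => m ∈ Good s r) ⊆
      (Ioc X (X + Y)).filter (fun m : ℕ =>
        InProgression (RegularPoints (Good s r) c δ B X Y) l (Real.log X ^ D) X (X + Y) m) ∪
      (Ioc X (X + Y)).filter (fun m : ℕ => m ∈ Good s r ∧
        ¬ InProgression (RegularPoints (Good s r) c δ B X Y) l (Real.log X ^ D) X (X + Y) m) := by
    intro m hm
    rw [mem_filter] at hm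
    rw [mem_union, mem_filter, mem_filter]
    by_cases hi : InProgression (RegularPoints (Good s r) c δ B X Y) l (Real.log X ^ D) X (X + Y) m
    · left
      exact ⟨hm.1, hi⟩
    · right
      exact ⟨hm.1, hm.2, hi⟩
  have hcard := (Finset.card_le_card hsub).trans (Finset.card_union_le _ _)
  have hcard' : ((cnt (Good s r) X (X + Y) : ℕ) : ℝ) ≤
      (((Ioc X (X + Y)).filter (fun m : ℕ =>
        InProgression (RegularPoints (Good s r) c δ B X Y) l (Real.log X ^ D) X (X + Y) m)).card : ℝ) +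
      (((Ioc X (X + Y)).filter (fun m : ℕ => m ∈ Good s r ∧
        ¬ InProgression (RegularPoints (Good s r) c δ B X Y) l (Real.log X ^ D) X
          (X + Y) m)).card : ℝ) := by
    unfold cnt
    exact_mod_cast hcard
  rw [mul_div_assoc] at h7
  linarith [hcard', h7, h8]

end Pool.Agent.Results.MP_a916dd_nt.NarrowProgressions
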